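import Pool.Agent.Q180.PG.Main

/-!
# The derived subgroup of a pro-`p` Cappitt group is finite cyclic (MP_ca0bb9_al, Q1: proved)

Let `G` be a pro-`p` group with `1 ≠ S̃(G) ≠ G`, where `S̃(G)` is the closure of the subgroup generated by
the closed subgroups which are not normal. Then the closure of the commutator subgroup is a finite cyclic
group of order `p ^ n`, `n ≥ 1` (so it is never the group of `p`-adic integers), and it equals the
abstract commutator subgroup.

Proof. Commutators are central. An element `g` outside `S̃(G)` which is not central has finite order: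
`[g, h] = lim g ^ a` is central, hence `g ^ (a * a)` is small. So `A g = {[g, h] : h ∈ G} ≤ ⟨g⟩` is a finite
cyclic `p`-group, the family `A g`, `g ∉ S̃(G)`, is directed, and its orders are bounded since `G` is
residually finite.
-/

set_option autoImplicit false

open scoped commutatorElement

namespace Pool.Agent.Results.MP_ca0bb9_al.DerivedFiniteCyclic

open Pool.Agent.Q180.PG (IsProP Cap)

/-- `S̃(G)`: the closure of the subgroup generated by all closed subgroups of `G` which are not
normal. -/
def STilde (G : Type*) [Group G] [TopologicalSpace G] [IsTopologicalGroup G] : Subgroup G :=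
  (⨆ L : {L : Subgroup G // IsClosed (L : Set G) ∧ ¬ L.Normal}, (L : Subgroup G)).topologicalClosure

/-- The derived subgroup: the closure of the abstract commutator subgroup. -/
def Derived (G : Type*) [Group G] [TopologicalSpace G] [IsTopologicalGroup G] : Subgroup G :=
  (commutator G).topologicalClosure

lemma cap {G : Type*} [Group G] [TopologicalSpace G] [IsTopologicalGroup G] (h : STilde G ≠ ⊤) :
    Cap (STilde G) := by
  refine ⟨h, ?_⟩
  intro L hL g hg hgS
  by_contra hn
  apply hgS
  apply Subgroup.le_topologicalClosure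
  exact (le_iSup (fun L : {L : Subgroup G // IsClosed (L : Set G) ∧ ¬ L.Normal} => (L : Subgroup G))
    ⟨L, hL, hn⟩) hg

lemma exists_comm_ne {G : Type*} [Group G] [TopologicalSpace G] [IsTopologicalGroup G] [T2Space G]
    (h : STilde G ≠ ⊥) : ∃ a b : G, ⁅a, b⁆ ≠ 1 := by
  by_contra hcon
  push Not at hcon
  have hcomm : ∀ a b : G, a * b = b * a := fun a b =>
    (commutatorElement_eq_one_iff_mul_comm.1 (hcon a b))
  apply h
  have hempty : ∀ L : {L : Subgroup G // IsClosed (L : Set G) ∧ ¬ L.Normal}, False := by
    rintro ⟨L, _, hL⟩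
    apply hL
    constructor
    intro n hn g
    rw [hcomm g n, mul_inv_cancel_right]
    exact hn
  have hbot : (⨆ L : {L : Subgroup G // IsClosed (L : Set G) ∧ ¬ L.Normal}, (L : Subgroup G)) = ⊥ := by
    rw [iSup_eq_bot]
    intro L
    exact (hempty L).elim
  rw [STilde, hbot, eq_bot_iff]
  exact Subgroup.topologicalClosure_minimal _ (le_refl _) (by
    rw [Subgroup.coe_bot]; exact isClosed_singleton)

theorem result (p : ℕ) (hp : p.Prime) (G : Type*) [Group G] [TopologicalSpace G]
    [IsTopologicalGroup G] (hG : IsProP p G) (h1 : STilde G ≠ ⊥) (h2 : STilde G ≠ ⊤) :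
    Derived G = commutator G ∧
    ∃ n : ℕ, 1 ≤ n ∧ Nonempty (Derived G ≃* Multiplicative (ZMod (p ^ n))) := by
  have := hG.t2
  obtain ⟨D, n, rfl, hcl, hcyc, hcard⟩ := Pool.Agent.Q180.PG.main hp hG (cap h2)
  have hD : Derived G = commutator G :=
    le_antisymm (Subgroup.topologicalClosure_minimal _ (le_refl _) hcl)
      (Subgroup.le_topologicalClosure _)
  refine ⟨hD, n, ?_, ?_⟩
  · obtain ⟨a, b, hab⟩ := exists_comm_ne h1
    rcases Nat.eq_zero_or_pos n with rfl | hn
    · exfalso
      rw [pow_zero] at hcard
      have hbot := Subgroup.card_eq_one.1 hcard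
      have hmem : ⁅a, b⁆ ∈ commutator G :=
        Subgroup.commutator_mem_commutator (Subgroup.mem_top a) (Subgroup.mem_top b)
      rw [hbot, Subgroup.mem_bot] at hmem
      exact hab hmem
    · exact hn
  · rw [hD]
    have : NeZero (p ^ n) := ⟨pow_ne_zero n hp.ne_zero⟩
    refine ⟨mulEquivOfCyclicCardEq ?_⟩
    rw [hcard]
    simp

end Pool.Agent.Results.MP_ca0bb9_al.DerivedFiniteCyclic
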